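import Mathlib

namespace Pool.Agent.H.MP_104b1e_lc

open Finset

/-- `IsZAM f A B`: the rectangles `A i × B i` (indexed by the finite type `I`, with private coins
`R` and `Q`) form a zero-information unambiguous Arthur-Merlin protocol for `f`. -/
def IsZAM {X Y R Q I : Type} [Fintype R] [Fintype Q] [Fintype I] (f : X → Y → Bool)
    (A : I → Set (X × R)) (B : I → Set (Y × Q)) : Prop :=
  Nonempty R ∧ Nonempty Q ∧
  (∀ x y, f x y = true → ∀ (r : R) (q : Q), ∃! i, (x, r) ∈ A i ∧ (y, q) ∈ B i) ∧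
  (∀ x y, f x y = false →
    2 * {p : R × Q | ∃ i, (x, p.1) ∈ A i ∧ (y, p.2) ∈ B i}.ncard ≤
      Fintype.card R * Fintype.card Q) ∧
  (∀ x y x' y', f x y = true → f x' y' = true → ∀ i,
    {p : R × Q | (x, p.1) ∈ A i ∧ (y, p.2) ∈ B i}.ncard =
      {p : R × Q | (x', p.1) ∈ A i ∧ (y', p.2) ∈ B i}.ncard)

/-- `f` has a ZAM protocol of cost at most `c`. -/
def ZAMle {X Y : Type} (f : X → Y → Bool) (c : ℝ) : Prop :=
  ∃ (R Q I : Type) (_ : Fintype R) (_ : Fintype Q) (_ : Fintype I)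
    (A : I → Set (X × R)) (B : I → Set (Y × Q)),
    IsZAM f A B ∧ (Nat.clog 2 (Fintype.card I) : ℝ) ≤ c

/-- Protocol with soundness 2/3. -/
def Pre {X Y R Q I : Type} [Fintype R] [Fintype Q] (f : X → Y → Bool)
    (A : I → X → Set R) (B : I → Y → Set Q) : Prop :=
  (∀ x y, f x y = true → ∀ (r : R) (q : Q), ∃! i, r ∈ A i x ∧ q ∈ B i y) ∧
  (∀ x y, f x y = false →
    3 * {p : R × Q | ∃ i, p.1 ∈ A i x ∧ p.2 ∈ B i y}.ncard ≤
      2 * (Fintype.card R * Fintype.card Q)) ∧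
  (∀ i x x', (A i x).ncard = (A i x').ncard) ∧ (∀ i y y', (B i y).ncard = (B i y').ncard)

lemma Pre.sq {X Y R Q I : Type} [Fintype R] [Fintype Q] [Fintype I] [Nonempty R] [Nonempty Q]
    {f : X → Y → Bool} {A : I → X → Set R} {B : I → Y → Set Q} (h : Pre f A B) :
    IsZAM f (fun i : I × I => {z : X × (R × R) | z.2 ∈ A i.1 z.1 ×ˢ A i.2 z.1})
      (fun i : I × I => {z : Y × (Q × Q) | z.2 ∈ B i.1 z.1 ×ˢ B i.2 z.1}) := by
  obtain ⟨h1, h2, h3, h4⟩ := h
  refine ⟨inferInstance, inferInstance, ?_, ?_, ?_⟩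
  · intro x y hxy r q
    obtain ⟨i, hi, hi'⟩ := h1 x y hxy r.1 q.1
    obtain ⟨j, hj, hj'⟩ := h1 x y hxy r.2 q.2
    refine ⟨(i, j), ⟨⟨hi.1, hj.1⟩, ⟨hi.2, hj.2⟩⟩, ?_⟩
    rintro ⟨i', j'⟩ ⟨⟨a1, a2⟩, ⟨b1, b2⟩⟩
    rw [hi' i' ⟨a1, b1⟩, hj' j' ⟨a2, b2⟩]
  · intro x y hxy
    have h5 := h2 x y hxy
    set T := {p : R × Q | ∃ i, p.1 ∈ A i x ∧ p.2 ∈ B i y} with hT
    have h6 : {p : (R × R) × (Q × Q) | ∃ i : I × I,
        (x, p.1) ∈ {z : X × (R × R) | z.2 ∈ A i.1 z.1 ×ˢ A i.2 z.1} ∧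
        (y, p.2) ∈ {z : Y × (Q × Q) | z.2 ∈ B i.1 z.1 ×ˢ B i.2 z.1}}.ncard ≤ (T ×ˢ T).ncard := by
      apply Set.ncard_le_ncard_of_injOn (fun p => ((p.1.1, p.2.1), (p.1.2, p.2.2)))
      · rintro p ⟨i, ⟨a1, a2⟩, ⟨b1, b2⟩⟩
        exact ⟨⟨i.1, a1, b1⟩, ⟨i.2, a2, b2⟩⟩
      · rintro ⟨⟨a, b⟩, c, d⟩ - ⟨⟨a', b'⟩, c', d'⟩ - he
        simp only [Prod.mk.injEq] at he ⊢
        exact ⟨⟨he.1.1, he.2.1⟩, he.1.2, he.2.2⟩
    rw [Set.ncard_prod] at h6
    simp only [Fintype.card_prod]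
    have h7 := Nat.mul_le_mul h5 h5
    nlinarith
  · intro x y x' y' _ _ i
    have e : ∀ x y, {p : (R × R) × (Q × Q) |
        (x, p.1) ∈ {z : X × (R × R) | z.2 ∈ A i.1 z.1 ×ˢ A i.2 z.1} ∧
        (y, p.2) ∈ {z : Y × (Q × Q) | z.2 ∈ B i.1 z.1 ×ˢ B i.2 z.1}} =
        (A i.1 x ×ˢ A i.2 x) ×ˢ (B i.1 y ×ˢ B i.2 y) := fun x y => rfl
    rw [e, e]
    simp only [Set.ncard_prod]
    rw [h3 i.1 x x', h3 i.2 x x', h4 i.1 y y', h4 i.2 y y']

def sg (z : ZMod 2) : ZMod 3 := if z = 0 then 1 else -1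

section prot
variable {X Y H K : Type} [Fintype Y] [Fintype H] [Fintype K] [DecidableEq H] [DecidableEq K]
  (f : X → Y → Bool) (u2 v2 : Y → H → ZMod 2) (u3 v3 : Y → K → ZMod 3)

def ep (y : Y) (b : H → ZMod 2) : ZMod 3 := sg (∑ h, b h * v2 y h)

def G (x : X) (b : H → ZMod 2) : K → ZMod 3 :=
  fun k => ∑ j, (if f x j = true then ep v2 j b else 0) * v3 j k

def ip (y : Y) (c : K → ZMod 3) : ZMod 3 := ∑ k, u3 y k * c k

lemma ip_sub (y : Y) (c d : K → ZMod 3) : ip u3 y (c - d) = ip u3 y c - ip u3 y d := by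
  simp [ip, mul_sub, sum_sub_distrib]

lemma ip_G (x : X) (y : Y) (b : H → ZMod 2) :
    ip u3 y (G f v2 v3 x b) =
      ∑ j, (if f x j = true then ep v2 j b else 0) * ∑ k, u3 y k * v3 j k := by
  simp only [ip, G, mul_sum]
  rw [sum_comm]
  refine sum_congr rfl fun j _ => sum_congr rfl fun k _ => by ring

lemma ep_add (y j : Y) (b : H → ZMod 2) :
    ep v2 j (b + u2 y) = ep v2 j b * sg (∑ h, u2 y h * v2 j h) := by
  simp only [ep, Pi.add_apply, add_mul, sum_add_distrib]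
  generalize (∑ h, b h * v2 j h) = s
  generalize (∑ h, u2 y h * v2 j h) = t
  revert s t
  decide

lemma key (hd2 : ∀ y, ∑ h, u2 y h * v2 y h = 1) (hd3 : ∀ y, ∑ k, u3 y k * v3 y k = 1)
    (ho : ∀ y j, y ≠ j → ∑ h, u2 y h * v2 j h = 0 ∨ ∑ k, u3 y k * v3 j k = 0)
    (x : X) (y : Y) (m : H → ZMod 2) :
    ip u3 y (G f v2 v3 x (m + u2 y)) =
      ip u3 y (G f v2 v3 x m) + if f x y = true then ep v2 y m else 0 := by
  classical
  rw [ip_G, ip_G, ← add_sum_erase _ _ (mem_univ y), ← add_sum_erase _ _ (mem_univ y), hd3,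
    ep_add, hd2]
  have : ∑ j ∈ univ.erase y, (if f x j = true then ep v2 j (m + u2 y) else 0) *
      ∑ k, u3 y k * v3 j k =
      ∑ j ∈ univ.erase y, (if f x j = true then ep v2 j m else 0) * ∑ k, u3 y k * v3 j k := by
    refine sum_congr rfl fun j hj => ?_
    rcases ho y j (ne_of_mem_erase hj).symm with h | h
    · rw [ep_add, h]
      simp [sg]
    · rw [h]; simp
  rw [this]
  have h3 : sg 1 = -1 := by decide
  rw [h3]
  have h4 : ∀ e s : ZMod 3, e * -1 * 1 + s = e * 1 + s + e := by decide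
  split_ifs
  · exact h4 _ _
  · simp

def PA (i : (H → ZMod 2) × (K → ZMod 3) × Bool) (x : X) : Set (K → ZMod 3) :=
  {G f v2 v3 x i.1 + i.2.1}

def PB (i : (H → ZMod 2) × (K → ZMod 3) × Bool) (y : Y) : Set ((H → ZMod 2) × ZMod 3) :=
  if i.2.2 = true then {(i.1 + u2 y, ip u3 y i.2.1)}
  else {(i.1, ip u3 y i.2.1), (i.1, ip u3 y i.2.1 + ep v2 y i.1)}

lemma ep_ne (y : Y) (b : H → ZMod 2) : ep v2 y b = 1 ∨ ep v2 y b = -1 := by
  unfold ep sg
  split_ifs <;> simp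

lemma addadd (m u : H → ZMod 2) : m + u + u = m := by
  funext h
  simp only [Pi.add_apply]
  generalize m h = a
  generalize u h = b
  revert a b
  decide

lemma mem_iff (hd2 : ∀ y, ∑ h, u2 y h * v2 y h = 1) (hd3 : ∀ y, ∑ k, u3 y k * v3 y k = 1)
    (ho : ∀ y j, y ≠ j → ∑ h, u2 y h * v2 j h = 0 ∨ ∑ k, u3 y k * v3 j k = 0)
    (x : X) (y : Y) (r : K → ZMod 3) (m : H → ZMod 2) (t : ZMod 3)
    (i : (H → ZMod 2) × (K → ZMod 3) × Bool) :
    (r ∈ PA f v2 v3 i x ∧ (m, t) ∈ PB u2 v2 u3 i y) ↔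
      (i = (m + u2 y, r - G f v2 v3 x (m + u2 y), true) ∧
        t = ip u3 y (r - G f v2 v3 x m) - if f x y = true then ep v2 y m else 0) ∨
      (i = (m, r - G f v2 v3 x m, false) ∧
        (t = ip u3 y (r - G f v2 v3 x m) ∨ t = ip u3 y (r - G f v2 v3 x m) + ep v2 y m)) := by
  obtain ⟨b, c, μ⟩ := i
  have hk := key f u2 v2 u3 v3 hd2 hd3 ho x y m
  cases μ
  · simp only [PA, PB, Set.mem_singleton_iff, Bool.false_eq_true, if_false, Set.mem_insert_iff,
      Prod.mk.injEq, and_false, false_and, false_or, and_true]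
    constructor
    · rintro ⟨rfl, ⟨rfl, rfl⟩ | ⟨rfl, rfl⟩⟩ <;> simp
    · rintro ⟨⟨rfl, rfl⟩, rfl | rfl⟩ <;> simp
  · simp only [PA, PB, Set.mem_singleton_iff, if_true, Prod.mk.injEq, and_true,
      Bool.true_eq_false, and_false, false_and, or_false]
    constructor
    · rintro ⟨hr, hm, ht⟩
      have hb : b = m + u2 y := by rw [hm, addadd]
      subst hb
      have hc : c = r - G f v2 v3 x (m + u2 y) := by rw [hr]; simp
      refine ⟨⟨rfl, hc⟩, ?_⟩
      rw [ht, hc, ip_sub, ip_sub, hk]; ring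
    · rintro ⟨⟨rfl, rfl⟩, ht⟩
      refine ⟨by simp, (addadd _ _).symm, ?_⟩
      rw [ht, ip_sub, ip_sub, hk]; ring

lemma pre (hd2 : ∀ y, ∑ h, u2 y h * v2 y h = 1) (hd3 : ∀ y, ∑ k, u3 y k * v3 y k = 1)
    (ho : ∀ y j, y ≠ j → ∑ h, u2 y h * v2 j h = 0 ∨ ∑ k, u3 y k * v3 j k = 0) :
    Pre f (PA f v2 v3) (PB u2 v2 u3) := by
  classical
  refine ⟨?_, ?_, ?_, ?_⟩
  · rintro x y hxy r ⟨m, t⟩
    simp only [mem_iff f u2 v2 u3 v3 hd2 hd3 ho, hxy, if_true]
    have he := ep_ne v2 y m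
    generalize ep v2 y m = e at he ⊢
    generalize ip u3 y (r - G f v2 v3 x m) = τ
    have h3 : (t = τ - e ∧ ¬ (t = τ ∨ t = τ + e)) ∨ (¬ t = τ - e ∧ (t = τ ∨ t = τ + e)) := by
      revert t τ
      rcases he with rfl | rfl <;> decide
    rcases h3 with ⟨a, b⟩ | ⟨a, b⟩
    · refine ⟨_, Or.inl ⟨rfl, a⟩, ?_⟩
      rintro i (h | h)
      · exact h.1
      · exact absurd h.2 b
    · refine ⟨_, Or.inr ⟨rfl, b⟩, ?_⟩
      rintro i (h | h)
      · exact absurd h.2 a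
      · exact h.1
  · intro x y hxy
    have h1 : {p : (K → ZMod 3) × ((H → ZMod 2) × ZMod 3) |
        ∃ i, p.1 ∈ PA f v2 v3 i x ∧ p.2 ∈ PB u2 v2 u3 i y}.ncard ≤
        (Set.univ : Set ((K → ZMod 3) × (H → ZMod 2) × Bool)).ncard := by
      apply Set.ncard_le_ncard_of_injOn
        (fun p => (p.1, p.2.1, decide (p.2.2 = ip u3 y (p.1 - G f v2 v3 x p.2.1))))
      · intro p _
        trivial
      · rintro ⟨r, m, t⟩ ⟨i, hi⟩ ⟨r', m', t'⟩ ⟨i', hi'⟩ he
        simp only [Prod.mk.injEq] at he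
        obtain ⟨rfl, rfl, he⟩ := he
        simp only [mem_iff f u2 v2 u3 v3 hd2 hd3 ho, hxy, Bool.false_eq_true, if_false,
          sub_zero] at hi hi'
        have e1 : t = ip u3 y (r - G f v2 v3 x m) ∨ t = ip u3 y (r - G f v2 v3 x m) + ep v2 y m := by
          tauto
        have e2 : t' = ip u3 y (r - G f v2 v3 x m) ∨
            t' = ip u3 y (r - G f v2 v3 x m) + ep v2 y m := by tauto
        have he' : t = ip u3 y (r - G f v2 v3 x m) ↔ t' = ip u3 y (r - G f v2 v3 x m) := by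
          simpa using he
        have : t = t' := by
          by_cases h : t = ip u3 y (r - G f v2 v3 x m)
          · rw [h, he'.1 h]
          · have h' := mt he'.2 h
            rw [e1.resolve_left h, e2.resolve_left h']
        rw [this]
    rw [Set.ncard_univ, Nat.card_eq_fintype_card] at h1
    simp only [Fintype.card_prod, Fintype.card_bool, ZMod.card] at h1 ⊢
    nlinarith
  · intro i x x'
    simp [PA]
  · intro i y y'
    unfold PB
    have hne : ∀ y, (i.1, ip u3 y i.2.1) ≠ (i.1, ip u3 y i.2.1 + ep v2 y i.1) := by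
      intro y h
      have h2 := (Prod.mk.injEq _ _ _ _ ▸ h).2
      have h3 : ep v2 y i.1 = 0 := by simpa using h2
      rcases ep_ne v2 y i.1 with h | h <;> rw [h] at h3 <;> exact absurd h3 (by decide)
    split_ifs
    · simp
    · rw [Set.ncard_pair (hne y), Set.ncard_pair (hne y')]

lemma zam_of_mv (hd2 : ∀ y, ∑ h, u2 y h * v2 y h = 1) (hd3 : ∀ y, ∑ k, u3 y k * v3 y k = 1)
    (ho : ∀ y j, y ≠ j → ∑ h, u2 y h * v2 j h = 0 ∨ ∑ k, u3 y k * v3 j k = 0) :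
    ZAMle f ((2 * (Fintype.card H + 2 * Fintype.card K + 1) : ℕ) : ℝ) := by
  refine ⟨_, _, _, inferInstance, inferInstance, inferInstance, _, _,
    (pre f u2 v2 u3 v3 hd2 hd3 ho).sq, ?_⟩
  rw [Nat.cast_le, Nat.clog_le_iff_le_pow (by norm_num)]
  simp only [Fintype.card_prod, Fintype.card_fun, ZMod.card, Fintype.card_bool]
  have : 3 ^ Fintype.card K ≤ 2 ^ (2 * Fintype.card K) := by
    rw [pow_mul]; exact Nat.pow_le_pow_left (by norm_num) _
  calc _ ≤ (2 ^ Fintype.card H * (2 ^ (2 * Fintype.card K) * 2)) *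
        (2 ^ Fintype.card H * (2 ^ (2 * Fintype.card K) * 2)) := by gcongr
    _ = _ := by ring

end prot

lemma mv {Y U : Type} [Fintype U] [DecidableEq U] (S : Y → Finset U) (p : ℕ) [Fact p.Prime]
    (a : ℕ) : ∃ (H : Type) (_ : Fintype H) (_ : DecidableEq H) (u v : Y → H → ZMod p),
      Fintype.card H ≤ (Fintype.card U + p ^ a) ^ (p ^ a) ∧ (∀ y, ∑ h, u y h * v y h = 1) ∧
      ∀ y j, ∑ h, u y h * v j h ≠ 0 → p ^ a ∣ (S y \ S j).card := by
  classical
  have hp : p.Prime := Fact.out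
  obtain ⟨d, hd⟩ : ∃ d, p ^ a = d + 1 := ⟨p ^ a - 1, by
    have := Nat.pos_of_ne_zero (pow_ne_zero a hp.ne_zero); omega⟩
  have hs : ∀ y j, ∑ W : powersetCard d (univ : Finset (U ⊕ Fin d)),
      (if W.1 ⊆ (S y).disjSum univ then (1 : ZMod p) else 0) *
      (if W.1 ⊆ (S j)ᶜ.disjSum univ then (1 : ZMod p) else 0) =
      (((S y \ S j).card + d).choose d : ℕ) := by
    intro y j
    rw [sum_coe_sort (powersetCard d (univ : Finset (U ⊕ Fin d)))
      (fun W => (if W ⊆ (S y).disjSum univ then (1 : ZMod p) else 0) *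
      (if W ⊆ (S j)ᶜ.disjSum univ then (1 : ZMod p) else 0))]
    simp only [ite_zero_mul_ite_zero, mul_one, sum_boole]
    congr 1
    have : ((S y \ S j).card + d).choose d =
        (powersetCard d ((S y \ S j).disjSum (univ : Finset (Fin d)))).card := by
      rw [card_powersetCard, card_disjSum]; simp
    rw [this]
    congr 1
    ext W
    simp only [mem_filter, mem_powersetCard, subset_univ, true_and]
    constructor
    · rintro ⟨h1, h2, h3⟩
      refine ⟨fun z hz => ?_, h1⟩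
      have a2 := h2 hz
      have a3 := h3 hz
      rcases z with z | z <;> simp_all
    · rintro ⟨h1, h2⟩
      refine ⟨h2, fun z hz => ?_, fun z hz => ?_⟩ <;>
      · have a1 := h1 hz
        rcases z with z | z <;> simp_all
  refine ⟨powersetCard d (univ : Finset (U ⊕ Fin d)), inferInstance, inferInstance,
    fun y W => if W.1 ⊆ (S y).disjSum univ then 1 else 0,
    fun j W => if W.1 ⊆ (S j)ᶜ.disjSum univ then 1 else 0, ?_, ?_, ?_⟩
  · rw [Fintype.card_coe, card_powersetCard, hd]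
    simp only [card_univ, Fintype.card_sum, Fintype.card_fin]
    calc _ ≤ (Fintype.card U + d) ^ d := Nat.choose_le_pow _ _
      _ ≤ (Fintype.card U + (d + 1)) ^ d := by gcongr; omega
      _ ≤ _ := Nat.pow_le_pow_right (by omega) (by omega)
  · intro y
    rw [hs]; simp
  · intro y j h
    rw [hs, Ne, ZMod.natCast_eq_zero_iff] at h
    set e := (S y \ S j).card
    have h1 : (e + d).choose (d + 1) * (d + 1) = (e + d).choose d * e := by
      rw [Nat.choose_succ_right_eq]; congr 1; omega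
    have h2 : p ^ a ∣ (e + d).choose d * e := by rw [← h1, hd]; exact Dvd.intro_left _ rfl
    exact (Nat.Coprime.pow_left a ((Nat.Prime.coprime_iff_not_dvd hp).2 h)).dvd_of_dvd_mul_left h2

lemma ZAMle.mono {X Y : Type} {f : X → Y → Bool} {c d : ℝ} (h : ZAMle f c) (hcd : c ≤ d) :
    ZAMle f d := by
  obtain ⟨R, Q, I, i1, i2, i3, A, B, h1, h2⟩ := h
  exact ⟨R, Q, I, i1, i2, i3, A, B, h1, h2.trans hcd⟩

lemma fin {X Y : Type} [Fintype Y] (f : X → Y → Bool) (a : ℕ) (ha : 1 ≤ a)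
    (hY : Fintype.card Y ≤ 2 ^ (a * 4 ^ a)) : ZAMle f ((2 ^ (15 * a * 2 ^ a) : ℕ) : ℝ) := by
  classical
  set q := 2 ^ a with hq
  have hq2 : 2 ≤ q := by
    calc 2 = 2 ^ 1 := by norm_num
      _ ≤ 2 ^ a := Nat.pow_le_pow_right (by norm_num) ha
  have hc : Fintype.card Y ≤ Fintype.card (Fin (q ^ 2) → Fin q) := by
    rw [Fintype.card_fun, Fintype.card_fin, Fintype.card_fin, hq, ← pow_mul, ← pow_mul,
      mul_comm a 2, pow_mul 2 2 a]
    exact hY
  obtain ⟨ι⟩ := Function.Embedding.nonempty_of_card_le hc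
  let S : Y → Finset (Fin (q ^ 2) × Fin q) := fun y => univ.image (fun t => (t, ι y t))
  haveI : Fact (Nat.Prime 3) := ⟨by norm_num⟩
  obtain ⟨H, iH, dH, u2, v2, cH, hd2, ho2⟩ := mv S 2 a
  obtain ⟨K, iK, dK, u3, v3, cK, hd3, ho3⟩ := mv S 3 (Nat.log 3 q + 1)
  set q3 := 3 ^ (Nat.log 3 q + 1) with hq3
  have l1 : q < q3 := Nat.lt_pow_succ_log_self (by norm_num) q
  have l2 : q3 ≤ 3 * q := by
    have := Nat.pow_log_le_self 3 (show q ≠ 0 by omega)
    rw [hq3, pow_succ]; omega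
  have ho : ∀ y j, y ≠ j → ∑ h, u2 y h * v2 j h = 0 ∨ ∑ k, u3 y k * v3 j k = 0 := by
    intro y j hne
    by_contra hcon
    push_neg at hcon
    have d2 := ho2 y j hcon.1
    have d3 := ho3 y j hcon.2
    have hco : Nat.Coprime (2 ^ a) q3 := Nat.Coprime.pow _ _ (by norm_num)
    have dd := hco.mul_dvd_of_dvd_of_dvd d2 d3
    have hle : (S y \ S j).card ≤ q ^ 2 := by
      calc _ ≤ (S y).card := card_le_card sdiff_subset
        _ ≤ (univ : Finset (Fin (q ^ 2))).card := card_image_le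
        _ = _ := by simp
    have h0 : (S y \ S j).card = 0 := by
      apply Nat.eq_zero_of_dvd_of_lt dd
      rw [← hq]
      nlinarith
    rw [card_eq_zero, sdiff_eq_empty_iff_subset] at h0
    apply hne
    apply ι.injective
    funext t
    have := h0 (mem_image_of_mem (fun t => (t, ι y t)) (mem_univ t))
    obtain ⟨s, -, hs⟩ := mem_image.1 this
    simp only [Prod.mk.injEq] at hs
    obtain ⟨rfl, hs⟩ := hs
    exact hs.symm
  refine (zam_of_mv f u2 v2 u3 v3 hd2 hd3 ho).mono ?_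
  rw [Nat.cast_le]
  simp only [Fintype.card_prod, Fintype.card_fin] at cH cK
  rw [← hq] at cH
  have b1 : q ^ 2 * q + 3 * q ≤ q ^ 4 := by
    have : 2 * 2 ≤ q * q := Nat.mul_le_mul hq2 hq2
    have h3 : q ^ 4 = q ^ 3 * q := by ring
    have h4 : q ^ 3 * 2 ≤ q ^ 3 * q := by gcongr
    have h5 : 4 * q ≤ q * q * q := by gcongr
    nlinarith
  have b2 : (q ^ 4) ^ (3 * q) = 2 ^ (12 * a * q) := by
    rw [← pow_mul]
    conv_lhs => rw [hq]
    rw [← pow_mul, ← hq]; congr 1; ring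
  have c1 : Fintype.card H ≤ 2 ^ (12 * a * q) := by
    rw [← b2]
    calc _ ≤ (q ^ 2 * q + q) ^ q := cH
      _ ≤ (q ^ 4) ^ q := Nat.pow_le_pow_left (by omega) _
      _ ≤ _ := Nat.pow_le_pow_right (by positivity) (by omega)
  have c2 : Fintype.card K ≤ 2 ^ (12 * a * q) := by
    rw [← b2]
    calc _ ≤ (q ^ 2 * q + q3) ^ q3 := cK
      _ ≤ (q ^ 4) ^ q3 := Nat.pow_le_pow_left (by omega) _
      _ ≤ _ := Nat.pow_le_pow_right (by positivity) l2
  have c3 : 1 ≤ 2 ^ (12 * a * q) := Nat.one_le_two_pow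
  have c4 : 2 ^ (12 * a * q) * 8 ≤ 2 ^ (15 * a * q) := by
    have : 1 ≤ a * q := Nat.mul_pos ha (by omega)
    calc 2 ^ (12 * a * q) * 8 = 2 ^ (12 * a * q + 3) := by ring
      _ ≤ _ := Nat.pow_le_pow_right (by norm_num) (by nlinarith)
  omega

/-- Main bound. -/
theorem main {X Y : Type} [Fintype Y] (f : X → Y → Bool) (N : ℕ) (hN : 17 ≤ N)
    (hY : Fintype.card Y ≤ N) :
    ZAMle f (Real.exp (120 * Real.sqrt (Real.log N * Real.log (Real.log N)))) := by
  classical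
  have hex : ∃ a : ℕ, N ≤ 2 ^ (a * 4 ^ a) := by
    refine ⟨N, (Nat.lt_two_pow_self).le.trans (Nat.pow_le_pow_right (by norm_num) ?_)⟩
    exact Nat.le_mul_of_pos_right _ (by positivity)
  have h1 := Nat.find_spec hex
  have hmin := fun b => Nat.find_min hex (m := b)
  set a := Nat.find hex with ha
  have ha2 : 2 ≤ a := by
    by_contra h
    have : a = 0 ∨ a = 1 := by omega
    rcases this with h0 | h0 <;> rw [h0] at h1 <;> norm_num at h1 <;> omega
  refine (fin f a (by omega) (hY.trans h1)).mono ?_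
  obtain ⟨b, hb⟩ : ∃ b, a = b + 1 := ⟨a - 1, by omega⟩
  have hb1 : 1 ≤ b := by omega
  have h2 : 2 ^ (b * 4 ^ b) < N := by
    have := hmin b (by omega)
    omega
  have l2 : (1 : ℝ) / 2 ≤ Real.log 2 := by have := Real.log_two_gt_d9; linarith
  have l3 : Real.log 2 ≤ 1 := by have := Real.log_two_lt_d9; linarith
  have hb' : (1 : ℝ) ≤ b := by exact_mod_cast hb1
  have h3 : (b : ℝ) * 4 ^ b / 2 ≤ Real.log N := by
    have : Real.log ((2 : ℝ) ^ (b * 4 ^ b)) ≤ Real.log N := by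
      apply Real.log_le_log (by positivity)
      exact_mod_cast h2.le
    rw [Real.log_pow] at this
    push_cast at this
    have h0 : (0 : ℝ) ≤ b * 4 ^ b := by positivity
    nlinarith
  have h4e : (4 : ℝ) ^ b = 2 ^ b * 2 ^ b := by rw [← mul_pow]; norm_num
  have h2b : (2 : ℝ) ≤ 2 ^ b := by
    calc (2 : ℝ) = 2 ^ 1 := by norm_num
      _ ≤ 2 ^ b := pow_le_pow_right₀ (by norm_num) hb1
  have h4 : (b : ℝ) / 2 ≤ Real.log (Real.log N) := by
    have h5 : (2 : ℝ) ^ b ≤ Real.log N := by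
      refine le_trans ?_ h3
      rw [h4e]
      have : (2 : ℝ) ^ b * 2 ≤ 2 ^ b * 2 ^ b := by gcongr
      nlinarith
    have := Real.log_le_log (by positivity) h5
    rw [Real.log_pow] at this
    nlinarith
  have h6 : (b : ℝ) * 2 ^ b / 2 ≤ Real.sqrt (Real.log N * Real.log (Real.log N)) := by
    apply Real.le_sqrt_of_sq_le
    calc ((b : ℝ) * 2 ^ b / 2) ^ 2 = (b * 4 ^ b / 2) * (b / 2) := by rw [h4e]; ring
      _ ≤ _ := by
        apply mul_le_mul h3 h4 (by positivity)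
        exact le_trans (by positivity) h3
  have h7 : (((2 ^ (15 * a * 2 ^ a) : ℕ) : ℝ)) = Real.exp ((15 * a * 2 ^ a : ℕ) * Real.log 2) := by
    rw [Real.exp_nat_mul, Real.exp_log (by norm_num)]
    push_cast
    rfl
  rw [h7]
  apply Real.exp_le_exp.2
  rw [hb]
  push_cast
  have h8 : (15 : ℝ) * (b + 1) * 2 ^ (b + 1) ≤ 120 * (b * 2 ^ b / 2) := by
    rw [pow_succ]
    nlinarith
  have h9 : (0 : ℝ) ≤ 15 * (b + 1) * 2 ^ (b + 1) := by positivity
  nlinarith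

end Pool.Agent.H.MP_104b1e_lc
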